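import Pool.Agent.helper55.RI.SpecG

set_option autoImplicit false

namespace Pool.Agent.RI

open Pool.Agent.helper62 Prog Function Pool.Agent.helper81.PL

theorem G3_pow {α : Type} [Primcodable α] {f : α → ℕ} (hf : Primrec f) :
    Primrec (fun a => 2 ^ f a) := by
  have h1 : Primrec₂ (fun a b : ℕ => a ^ b) := by
    rw [← Primrec₂.unpaired']
    exact Nat.Primrec.pow
  exact h1.comp (Primrec.const 2) hf

theorem G3_mk : Primrec₂ E → Primrec₂ mk := by
  intro hE
  exact hE.comp (Primrec.snd.comp (Primrec.unpair.comp Primrec.fst)) Primrec.snd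

theorem G3_gk : Primrec₂ E → Primrec₂ gk := by
  intro hE
  exact hE.comp (Primrec.fst.comp (Primrec.unpair.comp Primrec.fst)) Primrec.snd

/-- `tauG` is primitive recursive. -/
theorem G3 (hG2 : G2_stmt) : G3_stmt := by
  obtain ⟨hE, hPT, henc, hdw, hpre, hpr, hwds, hwdsP, huu, hlng, hGG, hlist, hrange⟩ := hG2
  have hmk := G3_mk hE
  have hgk := G3_gk hE
  -- `inRg`
  have h1 : Primrec₂ inRg := by
    have h2 : Primrec (fun p : ℕ × W => wds (2 ^ p.2.length)) :=
      hwdsP.comp (G3_pow (Primrec.list_length.comp Primrec.snd))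
    have h3 : Primrec₂ (fun (p : ℕ × W) (y : W) => decide (GG p.1 y = p.2)) :=
      (Primrec.eq (α := W)).decide.comp
        (hGG.comp (Primrec.fst.comp Primrec.fst) Primrec.snd) (Primrec.snd.comp Primrec.fst)
    exact (hlist (ℕ × W) _ _ h2 h3).1
  -- `falG`
  have h2 : Primrec (fun q : ℕ × ℕ × ℕ => falG q.1 q.2.1 q.2.2) := by
    have h3 : Primrec (fun p : (ℕ × ℕ × ℕ) × ℕ => gk p.1.2.1 (dw p.2)) :=
      hgk.comp (Primrec.fst.comp (Primrec.snd.comp Primrec.fst)) (hdw.comp Primrec.snd)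
    have h4 : Primrec (fun p : (ℕ × ℕ × ℕ) × ℕ => mk p.1.2.1 (gk p.1.2.1 (dw p.2))) :=
      hmk.comp (Primrec.fst.comp (Primrec.snd.comp Primrec.fst)) h3
    have h5 : Primrec (fun p : (ℕ × ℕ × ℕ) × ℕ =>
        decide (mk p.1.2.1 (gk p.1.2.1 (dw p.2)) = dw p.2)) :=
      (Primrec.eq (α := W)).decide.comp h4 (hdw.comp Primrec.snd)
    have h6 : Primrec (fun p : (ℕ × ℕ × ℕ) × ℕ => inRg p.1.1 (gk p.1.2.1 (dw p.2))) :=
      h1.comp (Primrec.fst.comp Primrec.fst) h3
    have h7 : Primrec₂ (fun (q : ℕ × ℕ × ℕ) (n : ℕ) =>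
        (!decide (mk q.2.1 (gk q.2.1 (dw n)) = dw n) || !inRg q.1 (gk q.2.1 (dw n)))) :=
      Primrec.or.comp (Primrec.not.comp h5) (Primrec.not.comp h6)
    exact (hrange (ℕ × ℕ × ℕ) _ _ (Primrec.snd.comp Primrec.snd) h7).1
  -- `kkG`
  have h3 : Primrec₂ kkG := by
    have h4 : Primrec (fun p : ℕ × W => p.2.length + 1) :=
      Primrec.succ.comp (Primrec.list_length.comp Primrec.snd)
    have h5 : Primrec₂ (fun (p : ℕ × W) (k : ℕ) => !falG p.1 k p.2.length) :=
      Primrec.not.comp (h2.comp (Primrec.pair (Primrec.fst.comp Primrec.fst)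
        (Primrec.pair Primrec.snd (Primrec.list_length.comp (Primrec.snd.comp Primrec.fst)))))
    exact (hrange (ℕ × W) _ _ h4 h5).2.2
  exact hmk.comp h3 hGG

end Pool.Agent.RI
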