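import Pool.Agent.helper55.RI.SpecV

set_option autoImplicit false

namespace Pool.Agent.RI

open Pool.Agent.helper62 Prog Function Pool.Agent.helper81.PL

theorem V5_min (N b m : ℕ) : citer N m (fun y : ℕ => b * y) 1 = min (b ^ m) N := by
  unfold citer
  induction m with
  | zero => rfl
  | succ m ih =>
    rw [iterate_succ_apply', ih]
    change min (b * min (b ^ m) N) N = _
    rw [pow_succ, mul_comm (b ^ m) b]
    rcases Nat.eq_zero_or_pos b with hb | hb
    · rw [hb, Nat.zero_mul, Nat.zero_mul]
    · rcases le_total (b ^ m) N with h | h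
      · rw [min_eq_left h]
      · rw [min_eq_right h, min_eq_right (Nat.le_mul_of_pos_left N hb),
          min_eq_right (h.trans (Nat.le_mul_of_pos_left _ hb))]

theorem V5_1 : PT (fun t : ℕ × ℕ × ℕ => min (t.1 ^ t.2.1) t.2.2) := by
  have h : PT (fun t : ℕ × ℕ × ℕ => citer t.2.2 t.2.1 (fun y : ℕ => t.1 * y) 1) := by
    fun_prop
  have e : (fun t : ℕ × ℕ × ℕ => min (t.1 ^ t.2.1) t.2.2) =
      fun t : ℕ × ℕ × ℕ => citer t.2.2 t.2.1 (fun y : ℕ => t.1 * y) 1 := by
    funext t
    rw [V5_min]
  rw [e]
  exact h

theorem V5_ck (M N : ℕ) : min (2 ^ M) N = min (2 ^ (min M N)) N := by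
  rcases le_total M N with h | h
  · rw [min_eq_left h]
  · rw [min_eq_right h]
    have h1 : N ≤ 2 ^ N := Nat.lt_two_pow_self.le
    have h2 : N ≤ 2 ^ M := h1.trans (Nat.pow_le_pow_right (by norm_num) h)
    rw [min_eq_right h1, min_eq_right h2]

theorem V5_2 (d : ℕ) : PT (fun t : W × ℕ => min (ck d t.1) t.2) := by
  have h1 : PT (fun t : W × ℕ => min ((t.1.length + 2) ^ d) t.2) :=
    PT.comp (f := fun t : W × ℕ => (t.1.length + 2, d, t.2)) V5_1 (by fun_prop)
  have h2 : PT (fun t : W × ℕ => min (2 ^ (min ((t.1.length + 2) ^ d) t.2)) t.2) :=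
    PT.comp (f := fun t : W × ℕ => (2, min ((t.1.length + 2) ^ d) t.2, t.2)) V5_1 (by fun_prop)
  have e : (fun t : W × ℕ => min (ck d t.1) t.2) =
      fun t : W × ℕ => min (2 ^ (min ((t.1.length + 2) ^ d) t.2)) t.2 := by
    funext t
    unfold ck
    rw [V5_ck]
  rw [e]
  exact h2

/-- one step of the list of words -/
def V5_s (l : List W) : List W := [] :: l.flatMap (fun w => [false :: w, true :: w])

theorem V5_iter (m : ℕ) : V5_s^[m] [] = wds m := by
  induction m with
  | zero => rfl
  | succ m ih =>
    rw [iterate_succ_apply', ih]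
    rfl

theorem V5_mem (n : ℕ) : ∀ w : W, w ∈ wds n ↔ w.length < n := by
  induction n with
  | zero =>
    intro w
    change w ∈ ([] : List W) ↔ _
    simp
  | succ n ih =>
    intro w
    change w ∈ [] :: (wds n).flatMap (fun w => [false :: w, true :: w]) ↔ _
    rw [List.mem_cons, List.mem_flatMap]
    cases w with
    | nil =>
      simp
    | cons b w =>
      rw [List.length_cons, Nat.succ_lt_succ_iff, ← ih w]
      constructor
      · rintro (h | ⟨v, hv, h⟩)
        · exact absurd h (by simp)
        · rw [List.mem_cons, List.mem_singleton] at h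
          rcases h with h | h
          · rw [(List.cons.inj h).2]; exact hv
          · rw [(List.cons.inj h).2]; exact hv
      · intro h
        right
        refine ⟨w, h, ?_⟩
        cases b
        · exact List.mem_cons_self
        · exact List.mem_cons_of_mem _ (List.mem_singleton_self _)

theorem V5_len (m : ℕ) : (wds m).length + 1 = 2 ^ m := by
  induction m with
  | zero => rfl
  | succ m ih =>
    change ([] :: (wds m).flatMap (fun w => [false :: w, true :: w])).length + 1 = _
    have h1 : ∀ l : List W,
        (l.flatMap (fun w => [false :: w, true :: w])).length = 2 * l.length := by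
      intro l
      induction l with
      | nil => rfl
      | cons a l ih2 =>
        rw [List.flatMap_cons, List.length_append, ih2]
        simp only [List.length_cons, List.length_nil]
        ring
    rw [List.length_cons, h1, pow_succ, ← ih]
    ring

theorem V5_3 : PT (fun t : ℕ × ℕ => wdsc t.1 t.2) := by
  have h1 : PT (fun t : ℕ × ℕ => min (2 ^ t.1) (t.2 + 1)) :=
    PT.comp (f := fun t : ℕ × ℕ => (2, t.1, t.2 + 1)) V5_1 (by fun_prop)
  have h2 : PT (fun t : ℕ × ℕ => citer t.2 t.1 V5_s []) := by
    unfold V5_s
    fun_prop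
  have h3 : PT (fun t : ℕ × ℕ => bif leb (min (2 ^ t.1) (t.2 + 1)) t.2 then
      citer t.2 t.1 V5_s [] else []) := by
    fun_prop
  have e : (fun t : ℕ × ℕ => wdsc t.1 t.2) = fun t : ℕ × ℕ =>
      bif leb (min (2 ^ t.1) (t.2 + 1)) t.2 then citer t.2 t.1 V5_s [] else [] := by
    funext t
    obtain ⟨m, N⟩ := t
    change wdsc m N = bif leb (min (2 ^ m) (N + 1)) N then citer N m V5_s [] else []
    unfold wdsc
    by_cases h : 2 ^ m ≤ N
    · rw [if_pos h]
      have h4 : leb (min (2 ^ m) (N + 1)) N = true := by
        unfold leb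
        rw [decide_eq_true_eq]
        exact (min_le_left _ _).trans h
      rw [h4, cond_true]
      have h5 : citer N m V5_s [] = V5_s^[m] [] := by
        apply citer_eq
        intro i hi
        rw [V5_iter]
        have h6 : 2 ^ i ≤ 2 ^ m := Nat.pow_le_pow_right (by norm_num) hi
        have h7 := V5_len i
        have h8 : i < 2 ^ i := Nat.lt_two_pow_self
        rw [fits_list]
        refine ⟨by omega, ?_⟩
        intro w hw
        rw [fits_list]
        rw [V5_mem] at hw
        exact ⟨by omega, fun _ _ => fits_bool⟩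
      rw [h5, V5_iter]
    · rw [if_neg h]
      have h4 : leb (min (2 ^ m) (N + 1)) N = false := by
        unfold leb
        rw [decide_eq_false_iff_not]
        intro h5
        rcases min_le_iff.mp h5 with h6 | h6
        · exact h h6
        · omega
      rw [h4, cond_false]
  rw [e]
  exact h3

theorem V5_pre (n m : ℕ) (h : n ≤ m) : wds n <+: wds m := by
  have h1 : ∀ k, wds k <+: wds (k + 1) := by
    intro k
    induction k with
    | zero => exact List.nil_prefix
    | succ k ih =>
      obtain ⟨r, hr⟩ := ih
      refine ⟨r.flatMap (fun w => [false :: w, true :: w]), ?_⟩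
      change ([] :: (wds k).flatMap (fun w => [false :: w, true :: w])) ++
        r.flatMap (fun w => [false :: w, true :: w]) =
        [] :: (wds (k + 1)).flatMap (fun w => [false :: w, true :: w])
      rw [List.cons_append, ← List.flatMap_append, hr]
  induction m with
  | zero =>
    have h2 : n = 0 := by omega
    rw [h2]
  | succ m ih =>
    rcases Nat.lt_or_ge n (m + 1) with h2 | h2
    · exact (ih (by omega)).trans (h1 m)
    · have h3 : n = m + 1 := by omega
      rw [h3]

/-- Clocks and the list of all words. -/
theorem V5 : V5_stmt :=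
  ⟨V5_1, V5_2, V5_3, V5_pre, V5_mem⟩

end Pool.Agent.RI
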